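import Mathlib


/-!
KQ, block Q1: the numbers of `w ^ M = f`, `M` arbitrary, separate the characters whose orders have large prime factors.
-/

set_option autoImplicit false

namespace Pool.Agent.Helper67.KQ2



/-- the arc `[-h, h)` modulo `Q` -/
def W (Q h x : ℚ) : Prop := ∃ k : ℤ, -h ≤ x - k * Q ∧ x - k * Q < h

theorem W_per (Q h x : ℚ) (m : ℤ) : W Q h (x + m * Q) ↔ W Q h x := by
  constructor
  · rintro ⟨k, h1, h2⟩
    refine ⟨k - m, ?_, ?_⟩ <;> push_cast <;> linarith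
  · rintro ⟨k, h1, h2⟩
    refine ⟨k + m, ?_, ?_⟩ <;> push_cast <;> linarith

theorem W_mul {Q h x c : ℚ} (hc : 0 < c) : W (c * Q) (c * h) (c * x) ↔ W Q h x := by
  constructor
  · rintro ⟨k, h1, h2⟩
    refine ⟨k, ?_, ?_⟩
    · have : c * (-h) ≤ c * (x - k * Q) := by linarith
      exact le_of_mul_le_mul_left this hc
    · have : c * (x - k * Q) < c * h := by linarith
      exact lt_of_mul_lt_mul_left this hc.le
  · rintro ⟨k, h1, h2⟩
    refine ⟨k, ?_, ?_⟩
    · have := mul_le_mul_of_nonneg_left h1 hc.le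
      linarith
    · have := mul_lt_mul_of_pos_left h2 hc
      linarith

theorem W_of {Q h x : ℚ} (h1 : -h ≤ x) (h2 : x < h) : W Q h x := ⟨0, by simpa using h1, by simpa using h2⟩

theorem not_W {Q h x : ℚ} (h0 : 0 < h) (hQ : 2 * h ≤ Q) (h1 : h ≤ x) (h2 : x < Q - h) : ¬ W Q h x := by
  rintro ⟨k, h3, h4⟩
  have h5 : 0 < k := by
    by_contra h5
    push Not at h5
    have h6 : (k : ℚ) ≤ 0 := by exact_mod_cast h5
    nlinarith
  have h6 : (1 : ℚ) ≤ k := by exact_mod_cast h5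
  nlinarith

/-- a good number in an open interval -/
theorem pick {r : ℤ} (hr : 2 ≤ r) {Bad : ℤ → Prop} (hB : ∀ n n', Bad n → Bad n' → r ∣ n - n') {c c' : ℚ}
    (h : c + 2 < c') : ∃ n : ℤ, ¬ Bad n ∧ c < n ∧ n < c' := by
  have h1 := Int.lt_floor_add_one c
  have h2 := Int.floor_le c
  by_cases h3 : Bad (⌊c⌋ + 1)
  · refine ⟨⌊c⌋ + 2, fun h4 => ?_, ?_, ?_⟩
    · have h5 := hB _ _ h4 h3
      rw [show ⌊c⌋ + 2 - (⌊c⌋ + 1) = 1 by ring] at h5
      have := Int.le_of_dvd one_pos h5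
      omega
    · push_cast
      linarith
    · push_cast
      linarith
  · refine ⟨⌊c⌋ + 1, h3, ?_, ?_⟩
    · push_cast
      linarith
    · push_cast
      linarith

/-- the map `n ↦ b n` maps arcs to arcs only if `b = ± 1` -/
theorem core {r : ℤ} (hr : 17 ≤ r) {Q h p p' : ℚ} {b : ℤ} {Bad : ℤ → Prop} (hB : ∀ n n', Bad n → Bad n' → r ∣ n - n')
    (h8 : 8 < 2 * h) (hQ : 4 * h ≤ Q) (hb : |(b : ℚ)| < Q / 2)
    (H : ∀ n : ℤ, ¬ Bad n → W Q h (p + n) → W Q h (p' + b * n)) : |b| ≤ 1 := by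
  have hQ0 : 0 < Q := by linarith
  have bad1 : ∀ n i : ℤ, Bad n → 0 < i → i < 17 → ¬ Bad (n + i) := by
    intro n i h1 h2 h3 h4
    have h5 := hB _ _ h4 h1
    rw [add_sub_cancel_left] at h5
    have := Int.le_of_dvd h2 h5
    omega
  have step : ∀ (κ n n' : ℤ), -h ≤ p' + b * n - κ * Q → p' + b * n - κ * Q < h → ¬ Bad n' → -h ≤ p + n' →
      p + n' < h → |(b : ℚ) * (n' - n)| < Q - 2 * h → -h ≤ p' + b * n' - κ * Q ∧ p' + b * n' - κ * Q < h := by
    intro κ n n' h1 h2 h3 h4 h5 h6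
    obtain ⟨k, h7, h8⟩ := H n' h3 (W_of h4 h5)
    rw [abs_lt] at h6
    have h9 : k = κ := by
      have e1 : ((k : ℚ) - κ) * Q < 1 * Q := by linarith
      have e2 : (-1) * Q < ((k : ℚ) - κ) * Q := by linarith
      have e3 := lt_of_mul_lt_mul_right e1 hQ0.le
      have e4 := lt_of_mul_lt_mul_right e2 hQ0.le
      have e5 : k - κ < 1 := by exact_mod_cast e3
      have e6 : -1 < k - κ := by exact_mod_cast e4
      omega
    rw [← h9]
    exact ⟨h7, h8⟩
  have hb' := abs_lt.1 hb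
  set n₁ : ℤ := ⌈-h - p⌉ with hn₁
  have h1 : -h - p ≤ n₁ := Int.le_ceil _
  have h2 : (n₁ : ℚ) < -h - p + 1 := Int.ceil_lt_add_one _
  -- a run of four
  obtain ⟨n₂, g0, g1, g2, g3, w0, w3⟩ : ∃ n₂ : ℤ, ¬ Bad n₂ ∧ ¬ Bad (n₂ + 1) ∧ ¬ Bad (n₂ + 2) ∧ ¬ Bad (n₂ + 3) ∧
      -h ≤ p + n₂ ∧ p + n₂ + 3 < h := by
    by_cases c0 : Bad n₁ ∨ Bad (n₁ + 1) ∨ Bad (n₁ + 2) ∨ Bad (n₁ + 3)
    · obtain ⟨j, hj0, hj3, hj⟩ : ∃ j : ℤ, 0 ≤ j ∧ j ≤ 3 ∧ Bad (n₁ + j) := by
        rcases c0 with c | c | c | c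
        · exact ⟨0, le_rfl, by norm_num, by simpa using c⟩
        · exact ⟨1, by norm_num, by norm_num, c⟩
        · exact ⟨2, by norm_num, by norm_num, c⟩
        · exact ⟨3, by norm_num, by norm_num, c⟩
      have key : ∀ i : ℤ, 4 ≤ i → i ≤ 7 → ¬ Bad (n₁ + i) := by
        intro i hi hi'
        have := bad1 (n₁ + j) (i - j) hj (by omega) (by omega)
        rwa [show n₁ + j + (i - j) = n₁ + i by ring] at this
      refine ⟨n₁ + 4, key 4 (by norm_num) (by norm_num), ?_, ?_, ?_, ?_, ?_⟩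
      · have := key 5 (by norm_num) (by norm_num)
        rwa [show n₁ + 4 + 1 = n₁ + 5 by ring]
      · have := key 6 (by norm_num) (by norm_num)
        rwa [show n₁ + 4 + 2 = n₁ + 6 by ring]
      · have := key 7 (by norm_num) (by norm_num)
        rwa [show n₁ + 4 + 3 = n₁ + 7 by ring]
      · push_cast
        linarith
      · push_cast
        linarith
    · push Not at c0
      exact ⟨n₁, c0.1, c0.2.1, c0.2.2.1, c0.2.2.2, by linarith, by linarith⟩
  have h3b : 3 * |(b : ℚ)| < 2 * h := by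
    obtain ⟨κ, e1, e2⟩ := H n₂ g0 (W_of w0 (by linarith))
    have s1 := step κ n₂ (n₂ + 1) e1 e2 g1 (by push_cast; linarith) (by push_cast; linarith)
      (by push_cast; rw [add_sub_cancel_left, mul_one]; linarith)
    have s2 := step κ (n₂ + 1) (n₂ + 2) s1.1 s1.2 g2 (by push_cast; linarith) (by push_cast; linarith)
      (by push_cast; rw [show (n₂ : ℚ) + 2 - (n₂ + 1) = 1 by ring, mul_one]; linarith)
    have s3 := step κ (n₂ + 2) (n₂ + 3) s2.1 s2.2 g3 (by push_cast; linarith) (by push_cast; linarith)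
      (by push_cast; rw [show (n₂ : ℚ) + 3 - (n₂ + 2) = 1 by ring, mul_one]; linarith)
    have e3 := s3.1
    have e4 := s3.2
    push_cast at e3 e4
    have e5 : |3 * (b : ℚ)| < 2 * h := by
      rw [abs_lt]
      constructor <;> linarith
    rwa [abs_mul, abs_of_pos (by norm_num : (0 : ℚ) < 3)] at e5
  -- the first good number
  obtain ⟨n₀, g0', l0, l0'⟩ : ∃ n₀ : ℤ, ¬ Bad n₀ ∧ -h ≤ p + n₀ ∧ p + n₀ < -h + 2 := by
    by_cases c : Bad n₁
    · exact ⟨n₁ + 1, bad1 n₁ 1 c (by norm_num) (by norm_num), by push_cast; linarith, by push_cast; linarith⟩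
    · exact ⟨n₁, c, by linarith, by linarith⟩
  obtain ⟨κ, k1, k2⟩ := H n₀ g0' (W_of l0 (by linarith))
  have run : ∀ i : ℕ, ¬ Bad (n₀ + i) → p + n₀ + i < h →
      -h ≤ p' + b * ((n₀ + i : ℤ) : ℚ) - κ * Q ∧ p' + b * ((n₀ + i : ℤ) : ℚ) - κ * Q < h := by
    intro i
    induction i using Nat.strong_induction_on with
    | _ i ih =>
      intro hg hw
      rcases Nat.lt_or_ge i 1 with hi | hi
      · obtain rfl : i = 0 := by omega
        rw [Nat.cast_zero, add_zero]
        exact ⟨k1, k2⟩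
      · by_cases c : Bad (n₀ + ((i - 1 : ℕ) : ℤ))
        · have hi2 : 2 ≤ i := by
            by_contra hi2
            obtain rfl : i = 1 := by omega
            simp at c
            exact g0' c
          have c2 : ¬ Bad (n₀ + ((i - 2 : ℕ) : ℤ)) := by
            intro c2
            have := bad1 _ 1 c2 (by norm_num) (by norm_num)
            rw [show n₀ + ((i - 2 : ℕ) : ℤ) + 1 = n₀ + ((i - 1 : ℕ) : ℤ) by omega] at this
            exact this c
          have hc : ((i - 2 : ℕ) : ℚ) = i - 2 := by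
            rw [Nat.cast_sub hi2]
            norm_num
          have s := ih (i - 2) (by omega) c2 (by rw [hc]; linarith)
          refine step κ _ (n₀ + i) s.1 s.2 hg ?_ ?_ ?_
          · push_cast
            have : (0 : ℚ) ≤ i := by positivity
            linarith
          · push_cast
            linarith
          · push_cast
            rw [hc, show (n₀ : ℚ) + i - (n₀ + (i - 2)) = 2 by ring, abs_mul, abs_of_pos (by norm_num : (0 : ℚ) < 2)]
            linarith
        · have hc : ((i - 1 : ℕ) : ℚ) = i - 1 := by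
            rw [Nat.cast_sub hi]
            norm_num
          have s := ih (i - 1) (by omega) c (by rw [hc]; linarith)
          refine step κ _ (n₀ + i) s.1 s.2 hg ?_ ?_ ?_
          · push_cast
            have : (0 : ℚ) ≤ i := by positivity
            linarith
          · push_cast
            linarith
          · push_cast
            rw [hc, show (n₀ : ℚ) + i - (n₀ + (i - 1)) = 1 by ring, mul_one]
            linarith
  -- the last good number
  obtain ⟨n₃, g3', l3, l3'⟩ : ∃ n₃ : ℤ, ¬ Bad n₃ ∧ p + n₃ < h ∧ h - 2 ≤ p + n₃ := by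
    have e1 : h - p ≤ ⌈h - p⌉ := Int.le_ceil _
    have e2 : (⌈h - p⌉ : ℚ) < h - p + 1 := Int.ceil_lt_add_one _
    by_cases c : Bad (⌈h - p⌉ - 2)
    · have := bad1 _ 1 c (by norm_num) (by norm_num)
      rw [show ⌈h - p⌉ - 2 + 1 = ⌈h - p⌉ - 1 by ring] at this
      exact ⟨_, this, by push_cast; linarith, by push_cast; linarith⟩
    · exact ⟨_, c, by push_cast; linarith, by push_cast; linarith⟩
  obtain ⟨i, hi⟩ : ∃ i : ℕ, n₃ = n₀ + i := by
    have : (n₀ : ℚ) ≤ n₃ := by linarith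
    have : n₀ ≤ n₃ := by exact_mod_cast this
    exact ⟨(n₃ - n₀).toNat, by omega⟩
  have hiq : (n₃ : ℚ) = n₀ + i := by exact_mod_cast hi
  have s := run i (hi ▸ g3') (by linarith)
  rw [← hi, hiq] at s
  have hib : |(b : ℚ) * i| < 2 * h := by
    rw [abs_lt]
    constructor <;> linarith [s.1, s.2]
  rw [abs_mul, abs_of_nonneg (by positivity : (0 : ℚ) ≤ i)] at hib
  by_contra hbb
  have hb2 : (2 : ℚ) ≤ |(b : ℚ)| := by
    have : 2 ≤ |b| := by omega
    exact_mod_cast this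
  have hi4 : 2 * h - 4 < i := by linarith
  nlinarith

end Pool.Agent.Helper67.KQ2
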