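import Pool.Agent.Helper35.KN.SepY
import Pool.Agent.Helper67.KQ.Win

/-!
KQ, block Q1, part P1: the numbers of a spectrum and the window `[- δ, δ)` modulo `1`.
-/

set_option autoImplicit false

namespace Pool.Agent.Helper67.KQ2

open Pool.Agent.Helper79.KN Pool.Agent.Helper35.KN

section
variable {ι : Type} [Fintype ι] {z : ι → ℤ} {A D : ℤ}

theorem cz_full (hlow : ∀ i, D ≤ z i % A) {n s : ℕ} (h : (A - D) * n ≤ A * s) : cz z A n s = Fintype.card ι := by
  rw [cz, Finset.filter_true_of_mem, Finset.card_univ]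
  intro i _
  have h2 : D * n ≤ (z i % A) * n := mul_le_mul_of_nonneg_right (hlow i) (by positivity)
  nlinarith

theorem cz_mid' {i0 i1 : ι} (hi0 : z i0 % A = D) (hi1 : z i1 % A = A - D) {n s : ℕ}
    (h : D * n ≤ A * s) (h' : A * s < (A - D) * n) : 0 < cz z A n s ∧ cz z A n s < Fintype.card ι := by
  constructor
  · rw [cz, Finset.card_pos]
    refine ⟨i1, Finset.mem_filter.2 ⟨Finset.mem_univ _, ?_⟩⟩
    rw [hi1]
    nlinarith
  · rw [cz, ← Finset.card_univ]
    refine Finset.card_lt_card (Finset.filter_ssubset.2 ⟨i0, Finset.mem_univ _, ?_⟩)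
    rw [hi0]
    intro h2
    nlinarith

end

/-- the data of a spectrum -/
theorem spec_data {n : Type} [Fintype n] {y : n → ℚ} {A : ℕ} (hy : IsSpectrum y A) {δ : ℚ} (h4 : 4 * δ ≤ 1)
    (hle : ∀ i, δ ≤ Int.fract (y i)) (hex : ∃ i, Int.fract (y i) = δ) :
    ∃ (z : n → ℤ) (D : ℕ) (m : ℤ), 0 < D ∧ 4 * D ≤ A ∧ δ = (D : ℚ) / A ∧ (∀ i, y i = z i / ((A : ℤ) : ℚ)) ∧
      (∀ i, (D : ℤ) ≤ z i % A) ∧ (∀ i, z i % A ≤ A - D) ∧ (∃ i, z i % A = D) ∧ (∃ i, z i % A = A - D) ∧
      (Finset.univ.filter fun i => z i % (A : ℤ) = A - D).card = (Finset.univ.filter fun i => Int.fract (y i) = δ).card ∧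
      2 * ∑ i, z i / A = (m - 1) * Fintype.card n := by
  obtain ⟨hpos, hden, hnon, ⟨σ, m, hσ⟩, -⟩ := hy
  obtain ⟨i0, hi0⟩ := hex
  choose z hz using hden
  have hA0 : (0 : ℤ) < A := by exact_mod_cast hpos
  have hAq : (0 : ℚ) < A := by exact_mod_cast hpos
  have hyz : ∀ i, y i = z i / ((A : ℤ) : ℚ) := fun i => by
    rw [eq_div_iff (by exact_mod_cast hpos.ne'), mul_comm]
    push_cast
    exact hz i
  have hfr : ∀ i, Int.fract (y i) = ((z i % (A : ℤ) : ℤ) : ℚ) / A := by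
    intro i
    have h1 := Int.emod_nonneg (z i) hA0.ne'
    have h2 := Int.emod_lt_of_pos (z i) hA0
    have h3 := Int.mul_ediv_add_emod (z i) (A : ℤ)
    rw [Int.fract_eq_iff]
    refine ⟨by positivity, ?_, ⟨z i / (A : ℤ), ?_⟩⟩
    · rw [div_lt_one hAq]
      exact_mod_cast h2
    · have h4 : (((A : ℤ) * (z i / (A : ℤ)) + z i % (A : ℤ) : ℤ) : ℚ) = z i := by rw [h3]
      have h5 : y i = ((A : ℚ) * ((z i / (A : ℤ) : ℤ) : ℚ) + ((z i % (A : ℤ) : ℤ) : ℚ)) / A := by
        rw [hyz i, ← h4, Int.cast_add, Int.cast_mul, Int.cast_natCast]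
      rw [h5, add_div, add_sub_cancel_right, mul_div_cancel_left₀ _ hAq.ne']
  have h0 : ∀ i, z i % (A : ℤ) ≠ 0 := by
    intro i hi
    have h1 := hfr i
    rw [hi, Int.cast_zero, zero_div, Int.fract_eq_zero_iff] at h1
    obtain ⟨w, hw⟩ := h1
    exact hnon i w hw.symm
  have hσz : ∀ i, z (σ i) = m * A - z i := by
    intro i
    have h1 := hσ i
    rw [hyz, hyz, div_eq_iff (by exact_mod_cast hpos.ne'), sub_mul, div_mul_cancel₀ _ (by exact_mod_cast hpos.ne')] at h1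
    exact_mod_cast h1
  set D : ℤ := z i0 % (A : ℤ) with hD
  have hDpos : 0 < D := lt_of_le_of_ne (Int.emod_nonneg (z i0) hA0.ne') (h0 i0).symm
  have hδD : δ = D / A := by rw [← hi0, hfr]
  have hD4 : 4 * D ≤ A := by
    rw [hδD, ← mul_div_assoc, div_le_one hAq] at h4
    exact_mod_cast h4
  have hlow : ∀ i, D ≤ z i % (A : ℤ) := by
    intro i
    have h1 := hle i
    rw [hfr, hδD, div_le_div_iff_of_pos_right hAq] at h1
    exact_mod_cast h1
  have hhigh : ∀ i, z i % (A : ℤ) ≤ A - D := by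
    intro i
    have h1 := hlow (σ i)
    rw [(symm_mod hA0 hσz h0 i).2] at h1
    omega
  have hi1 : z (σ i0) % (A : ℤ) = A - D := (symm_mod hA0 hσz h0 i0).2
  have hcard : (Finset.univ.filter fun i => z i % (A : ℤ) = A - D).card =
      (Finset.univ.filter fun i => Int.fract (y i) = δ).card := by
    refine Finset.card_bij' (fun i _ => σ.symm i) (fun i _ => σ i) ?_ ?_ ?_ ?_
    · intro i hi
      rw [Finset.mem_filter] at hi ⊢
      refine ⟨Finset.mem_univ _, ?_⟩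
      have h1 := (symm_mod hA0 hσz h0 (σ.symm i)).2
      rw [σ.apply_symm_apply, hi.2] at h1
      rw [hfr, hδD, show z (σ.symm i) % (A : ℤ) = D by omega]
    · intro i hi
      rw [Finset.mem_filter] at hi ⊢
      refine ⟨Finset.mem_univ _, ?_⟩
      have h2 := hi.2
      rw [hfr, hδD, div_left_inj' hAq.ne'] at h2
      rw [(symm_mod hA0 hσz h0 i).2, show z i % (A : ℤ) = D by exact_mod_cast h2]
    · intro i _
      simp
    · intro i _
      simp
  obtain ⟨D', hD'⟩ : ∃ D' : ℕ, D = (D' : ℤ) := ⟨D.toNat, (Int.toNat_of_nonneg hDpos.le).symm⟩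
  rw [hD'] at hDpos hδD hD4 hlow hhigh hi1 hcard
  refine ⟨z, D', m, by omega, by omega, by rw [hδD, Int.cast_natCast], hyz, hlow, hhigh, ⟨i0, by rw [← hD']⟩, ⟨σ i0, hi1⟩, hcard,
    two_sum hA0 hσz h0⟩

theorem W_iff {A D M s : ℕ} (hA : 0 < A) (hD : 0 < D) (h4 : 4 * D ≤ A) (hs : s < M) :
    W M ((D : ℚ) / A * M) s ↔ A * s < D * M ∨ ((A : ℤ) - D) * M ≤ A * s := by
  have hAq : (0 : ℚ) < A := by exact_mod_cast hA
  have hM : (0 : ℚ) < M := by exact_mod_cast (by omega : 0 < M)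
  have hsq : (s : ℚ) < M := by exact_mod_cast hs
  have hs0 : (0 : ℚ) ≤ s := by positivity
  have hDA : (D : ℚ) / A ≤ 1 / 4 := by
    rw [div_le_div_iff₀ hAq (by norm_num)]
    have : (4 : ℚ) * D ≤ A := by exact_mod_cast h4
    linarith
  have hDM : (D : ℚ) / A * M ≤ 1 / 4 * M := mul_le_mul_of_nonneg_right hDA hM.le
  have e1 : (D : ℚ) / A * M * A = D * M := by field_simp
  constructor
  · rintro ⟨k, h1, h2⟩
    have k0 : 0 ≤ k := by
      by_contra hk
      have : (k : ℚ) ≤ -1 := by exact_mod_cast (by omega : k ≤ -1)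
      nlinarith
    have k1 : k ≤ 1 := by
      by_contra hk
      have : (2 : ℚ) ≤ k := by exact_mod_cast (by omega : 2 ≤ k)
      nlinarith
    rcases (by omega : k = 0 ∨ k = 1) with rfl | rfl
    · left
      rw [Int.cast_zero, zero_mul, sub_zero] at h2
      have h3 := mul_lt_mul_of_pos_right h2 hAq
      rw [e1] at h3
      have h4 : (A : ℚ) * s < D * M := by linarith
      exact_mod_cast h4
    · right
      rw [Int.cast_one, one_mul] at h1
      have h3 := mul_le_mul_of_nonneg_right h1 hAq.le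
      rw [neg_mul, e1] at h3
      have h4 : ((A : ℚ) - D) * M ≤ A * s := by linarith
      exact_mod_cast h4
  · rintro (h | h)
    · refine ⟨0, ?_, ?_⟩
      · rw [Int.cast_zero, zero_mul, sub_zero]
        have : 0 ≤ (D : ℚ) / A * M := by positivity
        linarith
      · rw [Int.cast_zero, zero_mul, sub_zero]
        refine lt_of_mul_lt_mul_right ?_ hAq.le
        rw [e1, mul_comm]
        exact_mod_cast h
    · refine ⟨1, ?_, ?_⟩
      · rw [Int.cast_one, one_mul]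
        refine le_of_mul_le_mul_right ?_ hAq
        rw [neg_mul, e1]
        have h4 : ((A : ℚ) - D) * M ≤ A * s := by exact_mod_cast h
        linarith
      · rw [Int.cast_one, one_mul]
        have : 0 < (D : ℚ) / A * M := by positivity
        linarith

theorem key1 (c N : ℕ) (x : ℤ) (h1 : 0 < c) (h2 : c < N) : (c : ℤ) ≠ x * N := by
  intro h3
  have h4 : (N : ℤ) ∣ c := ⟨x, by rw [h3, mul_comm]⟩
  have h5 := Int.le_of_dvd (by exact_mod_cast h1) h4
  omega

/-- P1, separation, half-open windows -/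
theorem sep_of_W {n : Type} [Fintype n] {y : n → ℚ} {A : ℕ} (hy : IsSpectrum y A) {δ : ℚ} (h4 : 4 * δ ≤ 1)
    (hle : ∀ i, δ ≤ Int.fract (y i)) (hex : ∃ i, Int.fract (y i) = δ) {M s s' : ℕ} (hs : s < M) (hs' : s' < M)
    (h : ¬ (W M (δ * M) s ↔ W M (δ * M) s')) (w : ℤ) :
    (∃ p, num y M s p ≠ num y M s' (w + p)) ∧ ∃ p, num y M s p ≠ num y M s' (w - p) := by
  obtain ⟨z, D, m, hD, hDA, rfl, hyz, hlow, hhigh, ⟨i0, hi0⟩, ⟨i1, hi1⟩, -, h2sum⟩ := spec_data hy h4 hle hex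
  have hA : 0 < A := hy.pos
  have hA0 : (0 : ℤ) < A := by exact_mod_cast hA
  rw [W_iff hA hD hDA hs, W_iff hA hD hDA hs'] at h
  have c1 : ∀ s, s < M → (A * s < D * M ∨ ((A : ℤ) - D) * M ≤ A * s) →
      ∃ x : ℤ, (cz z A M s : ℤ) = x * Fintype.card n := by
    rintro s - (h1 | h1)
    · exact ⟨0, by rw [cz_zero hhigh (by exact_mod_cast h1)]; simp⟩
    · exact ⟨1, by rw [cz_full hlow h1, one_mul]⟩
  have c2 : ∀ s, s < M → ¬ (A * s < D * M ∨ ((A : ℤ) - D) * M ≤ A * s) →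
      0 < cz z A M s ∧ cz z A M s < Fintype.card n := by
    intro s _ h1
    push Not at h1
    exact cz_mid' hi0 hi1 (by exact_mod_cast h1.1) h1.2
  have fin : (((∃ x : ℤ, (cz z A M s : ℤ) = x * Fintype.card n) ∧ 0 < cz z A M s' ∧ cz z A M s' < Fintype.card n) ∨
      ((∃ x : ℤ, (cz z A M s' : ℤ) = x * Fintype.card n) ∧ 0 < cz z A M s ∧ cz z A M s < Fintype.card n)) := by
    by_cases a1 : A * s < D * M ∨ ((A : ℤ) - D) * M ≤ A * s
    · by_cases a2 : A * s' < D * M ∨ ((A : ℤ) - D) * M ≤ A * s'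
      · exact absurd (by tauto) h
      · exact Or.inl ⟨c1 s hs a1, c2 s' hs' a2⟩
    · by_cases a2 : A * s' < D * M ∨ ((A : ℤ) - D) * M ≤ A * s'
      · exact Or.inr ⟨c1 s' hs' a2, c2 s hs a1⟩
      · exact absurd (by tauto) h
  constructor
  · by_contra hc
    push Not at hc
    have h1 := shift' hA0 hyz hs hs' hc
    rcases fin with ⟨⟨x, h2⟩, h3, h4⟩ | ⟨⟨x, h2⟩, h3, h4⟩
    · exact key1 _ _ (x + w) h3 h4 (by rw [h2] at h1; linarith)
    · exact key1 _ _ (x - w) h3 h4 (by rw [h2] at h1; linarith)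
  · by_contra hc
    push Not at hc
    have h1 := refl' hA0 hyz hs hs' hc
    rw [h2sum] at h1
    rcases fin with ⟨⟨x, h2⟩, h3, h4⟩ | ⟨⟨x, h2⟩, h3, h4⟩
    · exact key1 _ _ (w - (m - 1) - x) h3 h4 (by rw [h2] at h1; linarith)
    · exact key1 _ _ (w - (m - 1) - x) h3 h4 (by rw [h2] at h1; linarith)

/-- P1, asymmetry -/
theorem asym_of_win {n : Type} [Fintype n] {y : n → ℚ} {A : ℕ} (hy : IsSpectrum y A) {δ : ℚ} (h4 : 4 * δ ≤ 1)
    (hle : ∀ i, δ ≤ Int.fract (y i)) (hex : ∃ i, Int.fract (y i) = δ)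
    (hc : 2 * (Finset.univ.filter fun i => Int.fract (y i) = δ).card < Fintype.card n) {M s : ℕ} (hs : s < M)
    (h1 : δ ≤ (s : ℚ) / M) (h2 : (s : ℚ) / M < δ + 1 / A) (w : ℤ) : ∃ p, num y M s p ≠ num y M s (w - p) := by
  obtain ⟨z, D, m, hD, hDA, rfl, hyz, hlow, hhigh, -, ⟨i1, hi1⟩, hcard, h2sum⟩ := spec_data hy h4 hle hex
  have hA : 0 < A := hy.pos
  have hA0 : (0 : ℤ) < A := by exact_mod_cast hA
  have hAq : (0 : ℚ) < A := by exact_mod_cast hA
  have hM : (0 : ℚ) < M := by exact_mod_cast (by omega : 0 < M)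
  by_contra hn
  push Not at hn
  have h3 := refl' hA0 hyz hs hs hn
  have h5 : cz z A M s = (Finset.univ.filter fun i => z i % (A : ℤ) = A - D).card := by
    refine cz_one hhigh ?_ ?_
    · rw [div_le_div_iff₀ hAq hM] at h1
      have : (D : ℚ) * M ≤ A * s := by linarith
      exact_mod_cast this
    · rw [← add_div, div_lt_div_iff₀ hM hAq] at h2
      have : (A : ℚ) * s < (D + 1) * M := by linarith
      exact_mod_cast this
  have h6 : 0 < (Finset.univ.filter fun i => z i % (A : ℤ) = A - D).card :=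
    Finset.card_pos.2 ⟨i1, Finset.mem_filter.2 ⟨Finset.mem_univ _, hi1⟩⟩
  rw [h2sum, h5] at h3
  rw [← hcard] at hc
  refine key1 (2 * (Finset.univ.filter fun i => z i % (A : ℤ) = A - D).card) (Fintype.card n) (w - (m - 1))
    (by omega) hc ?_
  push_cast
  linarith

/-- P1, separation, open windows -/
theorem sep_of_win {n : Type} [Fintype n] {y : n → ℚ} {A : ℕ} (hy : IsSpectrum y A) {δ : ℚ} (h4 : 4 * δ ≤ 1)
    (hle : ∀ i, δ ≤ Int.fract (y i)) (hex : ∃ i, Int.fract (y i) = δ) {M s s' : ℕ} (hs : s < M) (hs' : s' < M)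
    (h1 : (s : ℚ) / M ≠ 1 - δ) (h1' : (s' : ℚ) / M ≠ 1 - δ)
    (h : ¬ ((∃ k : ℤ, |(s : ℚ) / M - k| < δ) ↔ ∃ k : ℤ, |(s' : ℚ) / M - k| < δ)) (w : ℤ) :
    (∃ p, num y M s p ≠ num y M s' (w + p)) ∧ ∃ p, num y M s p ≠ num y M s' (w - p) := by
  have hM : (0 : ℚ) < M := by exact_mod_cast (by omega : 0 < M)
  have hδ : 0 ≤ δ := by
    obtain ⟨i, hi⟩ := hex
    rw [← hi]
    exact Int.fract_nonneg _
  have key : ∀ s : ℕ, s < M → (s : ℚ) / M ≠ 1 - δ → (W M (δ * M) s ↔ ∃ k : ℤ, |(s : ℚ) / M - k| < δ) := by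
    intro s hs h1
    have hsq : (s : ℚ) / M < 1 := by
      rw [div_lt_one hM]
      exact_mod_cast hs
    have hs0 : (0 : ℚ) ≤ (s : ℚ) / M := by positivity
    have e1 : (s : ℚ) = (s : ℚ) / M * M := by field_simp
    have e2 : W M (δ * M) s ↔ W 1 δ ((s : ℚ) / M) := by
      rw [← W_mul hM (Q := 1) (h := δ) (x := (s : ℚ) / M), mul_one, mul_comm (M : ℚ) δ, mul_comm (M : ℚ) ((s : ℚ) / M), ← e1]
    rw [e2]
    constructor
    · rintro ⟨k, h2, h3⟩
      refine ⟨k, ?_⟩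
      rw [mul_one] at h2 h3
      rw [abs_lt]
      refine ⟨lt_of_le_of_ne h2 fun h5 => h1 ?_, h3⟩
      have h6 : k = 1 := by
        have a1 : (0 : ℚ) < k + 1 := by linarith
        have a2 : (k : ℚ) < 2 := by linarith
        have a3 : 0 < k + 1 := by exact_mod_cast a1
        have a4 : k < 2 := by exact_mod_cast a2
        rcases (by omega : k = 0 ∨ k = 1) with rfl | h7
        · exfalso
          rw [Int.cast_zero, sub_zero] at h5 h3
          have h8 : (s : ℚ) / M = 0 := by linarith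
          have h9 : δ = 0 := by linarith
          rw [h8, h9] at h3
          exact lt_irrefl _ h3
        · exact h7
      rw [h6, Int.cast_one] at h5
      linarith
    · rintro ⟨k, h2⟩
      rw [abs_lt] at h2
      exact ⟨k, by rw [mul_one]; exact h2.1.le, by rw [mul_one]; exact h2.2⟩
  rw [← key s hs h1, ← key s' hs' h1'] at h
  exact sep_of_W hy h4 hle hex hs hs' h w

end Pool.Agent.Helper67.KQ2
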