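import Mathlib
import Pool.Agent.Helper9.NS
import Pool.Agent.Helper67.KQ.Mn
import Pool.Agent.Helper5.KP.Rat
import Pool.Agent.Helper70.KX.Line

/-!
# KQ: step A for quartic families, the data exist
-/

set_option linter.unusedSectionVars false

namespace Pool.Agent.Helper67.KQ

open VC VF Function Polynomial Pool.Agent.Helper21.TO Pool.Agent.Helper15.GT Pool.Agent.Helper15.KP
open Pool.Agent.Helper67.KP
open Pool.Agent.Helper51.VN (Harm)

universe u

variable {k : Type u} [Field k] [IsAlgClosed k] [CharZero k]

/-- The polynomial of the square root of the leading coefficient. -/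
noncomputable def sqP {F : Type u} [Field F] [Algebra k F] (D : CQ k F) : F[X] :=
  X ^ 2 - Polynomial.C (aeval (D.τ ^ 2) (D.e 4))

section

variable {F : Type u} [Field F] [Algebra k F] (D : CQ k F)

lemma tr_sq : Transcendental k (D.τ ^ 2) :=
  (Pool.Agent.Helper70.KX.ind_fst D.ind).pow (by norm_num)

lemma aev_ne {p : k[X]} (hp : p ≠ 0) : aeval (D.τ ^ 2) p ≠ 0 :=
  fun h => hp (transcendental_iff.mp (tr_sq D) p h)

lemma sqP_ne : sqP D ≠ 0 := X_pow_sub_C_ne_zero (by norm_num) _

end

/-- The construction in a splitting field. -/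
theorem exists_a1q_split {F : Type u} [Field F] [Algebra k F] (D : CQ k F) {Ω : Type u} [Field Ω] [Algebra F Ω]
    [Algebra k Ω] [IsScalarTower k F Ω] (hsp : (sqP D).IsSplittingField F Ω) :
    ∃ (G Γ : Type u) (_ : Group G) (_ : Fintype G) (_ : Group Γ)
      (_ : Fintype Γ), Nonempty (A1G D.ι (27 * X ^ 2 * QS D.e) (27 * X ^ 3 * QT D.e) Ω G Γ) := by
  classical
  have z1 : CharZero F := charZero_of_injective_algebraMap (algebraMap k F).injective
  have z2 : CharZero Ω := charZero_of_injective_algebraMap (algebraMap k Ω).injective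
  have i1 : FiniteDimensional F Ω := IsSplittingField.finiteDimensional Ω (sqP D)
  have i2 : Normal F Ω := Normal.of_isSplittingField (sqP D)
  have i3 : IsGalois F Ω := ⟨⟩
  -- the root
  have hcF : ∀ p : k[X], algebraMap F Ω (aeval (D.τ ^ 2) p) = aeval (algebraMap F Ω D.τ ^ 2) p := by
    intro p
    rw [← aeval_algebraMap_apply, map_pow]
  obtain ⟨Q, hQ⟩ : ∃ Q : Ω, Q ^ 2 = aeval (algebraMap F Ω D.τ ^ 2) (D.e 4) := by
    obtain ⟨Q, hQ⟩ := hsp.splits'.exists_eval_eq_zero (by
      rw [Polynomial.degree_map, sqP, degree_X_pow_sub_C (by norm_num)]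
      norm_num)
    refine ⟨Q, ?_⟩
    rw [sqP, Polynomial.map_sub, Polynomial.map_pow, map_X, map_C, eval_sub, eval_pow, eval_X, eval_C, hcF] at hQ
    exact sub_eq_zero.mp hQ
  -- the fields
  let K : IntermediateField k F := IntermediateField.adjoin k {D.τ}
  let τ : K := ⟨D.τ, IntermediateField.mem_adjoin_simple_self k D.τ⟩
  have z3 : CharZero K := charZero_of_injective_algebraMap (algebraMap k K).injective
  let L : IntermediateField K Ω := IntermediateField.adjoin K {Q}
  have z4 : CharZero L := charZero_of_injective_algebraMap (algebraMap K L).injective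
  have i5 : IsScalarTower k L Ω := IsScalarTower.of_algebraMap_eq fun x => by
    rw [IsScalarTower.algebraMap_apply k K L x, ← IsScalarTower.algebraMap_apply K L Ω,
      ← IsScalarTower.algebraMap_apply k K Ω]
  have hτΩ : algebraMap L Ω (algebraMap K L τ) = algebraMap F Ω D.τ := rfl
  have hcK : ∀ p : k[X], algebraMap K Ω (aeval (τ ^ 2) p) = aeval (algebraMap F Ω D.τ ^ 2) p := by
    intro p
    rw [← aeval_algebraMap_apply, map_pow]
    rfl
  have hint : IsIntegral K Q := by
    rw [← isAlgebraic_iff_isIntegral]
    refine ⟨X ^ 2 - Polynomial.C (aeval (τ ^ 2) (D.e 4)), X_pow_sub_C_ne_zero (by norm_num) _, ?_⟩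
    simp only [map_sub, map_pow, aeval_X, aeval_C, hcK]
    exact sub_eq_zero.mpr hQ
  have i4 : FiniteDimensional K L := IntermediateField.adjoin.finiteDimensional hint
  have genK : IntermediateField.adjoin k {τ} = ⊤ := Pool.Agent.Helper70.KX.adjoin_gen_top D.τ
  have hK : IsFunctionField k K := Pool.Agent.Helper70.KX.line_ff
    (Pool.Agent.Helper70.KX.trans_gen (Pool.Agent.Helper70.KX.ind_fst D.ind)) genK
  have hL : IsFunctionField k L := ff_ext hK
  -- the curve
  let q : L := ⟨Q, IntermediateField.mem_adjoin_simple_self K Q⟩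
  have hqL : algebraMap L Ω q = Q := rfl
  let e : Fin 5 → L := fun j => aeval ((algebraMap K L τ) ^ 2) (D.e j)
  have hcL : ∀ p : k[X], algebraMap L Ω (aeval ((algebraMap K L τ) ^ 2) p) = aeval (algebraMap F Ω D.τ ^ 2) p := by
    intro p
    rw [← aeval_algebraMap_apply, map_pow, hτΩ]
  have hinjL : Function.Injective (algebraMap L Ω) := (algebraMap L Ω).injective
  have hcne : ∀ p : k[X], p ≠ 0 → aeval ((algebraMap K L τ) ^ 2) p ≠ 0 := by
    intro p hp h0
    have h1 := congrArg (algebraMap L Ω) h0
    rw [hcL, map_zero, ← hcF] at h1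
    exact aev_ne D hp ((map_eq_zero_iff _ (algebraMap F Ω).injective).mp h1)
  have hq2 : q ^ 2 = e 4 := hinjL (by
    rw [map_pow, hqL, hQ]
    exact (hcL _).symm)
  have hq0 : q ≠ 0 := by
    intro h0
    rw [h0] at hq2
    exact hcne _ D.e4 (by rw [← zero_pow (two_ne_zero)]; exact hq2.symm)
  have genL : IntermediateField.adjoin k {algebraMap K L τ, q} = ⊤ := by
    rw [eq_top_iff]
    intro z _
    set N := IntermediateField.adjoin k {algebraMap K L τ, q} with hN
    have hKN : ∀ a : K, algebraMap K L a ∈ N := by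
      intro a
      have ha : a ∈ IntermediateField.adjoin k {τ} := by rw [genK]; exact IntermediateField.mem_top
      induction ha using IntermediateField.adjoin_induction with
      | mem x hx =>
        obtain rfl : x = τ := hx
        exact IntermediateField.subset_adjoin k _ (Or.inl rfl)
      | algebraMap x =>
        rw [← IsScalarTower.algebraMap_apply k K L]
        exact N.algebraMap_mem x
      | add x y _ _ hx hy => rw [map_add]; exact add_mem hx hy
      | inv x _ hx => rw [map_inv₀]; exact inv_mem hx
      | mul x y _ _ hx hy => rw [map_mul]; exact mul_mem hx hy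
    have key : ∀ z ∈ IntermediateField.adjoin K {Q}, ∃ z' ∈ N, algebraMap L Ω z' = z := by
      intro z hz
      induction hz using IntermediateField.adjoin_induction with
      | mem x hx =>
        obtain rfl : x = Q := hx
        exact ⟨q, IntermediateField.subset_adjoin k _ (Or.inr rfl), rfl⟩
      | algebraMap x => exact ⟨algebraMap K L x, hKN x, rfl⟩
      | add x y _ _ hx hy =>
        obtain ⟨x', hx', rfl⟩ := hx
        obtain ⟨y', hy', rfl⟩ := hy
        exact ⟨x' + y', add_mem hx' hy', map_add _ _ _⟩
      | inv x _ hx =>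
        obtain ⟨x', hx', rfl⟩ := hx
        exact ⟨x'⁻¹, inv_mem hx', map_inv₀ _ _⟩
      | mul x y _ _ hx hy =>
        obtain ⟨x', hx', rfl⟩ := hx
        obtain ⟨y', hy', rfl⟩ := hy
        exact ⟨x' * y', mul_mem hx' hy', map_mul _ _ _⟩
    obtain ⟨z', hz', hzz⟩ := key _ z.2
    have : z' = z := hinjL hzz
    rw [← this]
    exact hz'
  have gen : IntermediateField.adjoin L {algebraMap F Ω D.s, algebraMap F Ω D.y} = ⊤ := by
    rw [eq_top_iff]
    intro z _
    set N := IntermediateField.adjoin L {algebraMap F Ω D.s, algebraMap F Ω D.y} with hN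
    have hFN : ∀ a : F, algebraMap F Ω a ∈ N := by
      intro a
      have ha : a ∈ IntermediateField.adjoin k {D.τ, D.s, D.y} := by rw [D.gen]; exact IntermediateField.mem_top
      induction ha using IntermediateField.adjoin_induction with
      | mem x hx =>
        rcases hx with rfl | rfl | rfl
        · rw [← hτΩ]
          exact N.algebraMap_mem _
        · exact IntermediateField.subset_adjoin L _ (Or.inl rfl)
        · exact IntermediateField.subset_adjoin L _ (Or.inr rfl)
      | algebraMap x =>
        rw [← IsScalarTower.algebraMap_apply k F Ω, IsScalarTower.algebraMap_apply k L Ω]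
        exact N.algebraMap_mem _
      | add x y _ _ hx hy => rw [map_add]; exact add_mem hx hy
      | inv x _ hx => rw [map_inv₀]; exact inv_mem hx
      | mul x y _ _ hx hy => rw [map_mul]; exact mul_mem hx hy
    have hz : z ∈ IntermediateField.adjoin F ((sqP D).rootSet Ω) := by
      rw [(isSplittingField_iff_intermediateField.mp hsp).2]
      exact IntermediateField.mem_top
    have hQN : Q ∈ N := by rw [← hqL]; exact N.algebraMap_mem _
    induction hz using IntermediateField.adjoin_induction with
    | mem x hx =>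
      have h2 := (mem_rootSet'.mp hx).2
      rw [sqP, map_sub, map_pow, aeval_X, aeval_C, hcF, ← hQ] at h2
      rcases sq_eq_sq_iff_eq_or_eq_neg.mp (sub_eq_zero.mp h2) with h3 | h3
      · rw [h3]; exact hQN
      · rw [h3]; exact neg_mem hQN
    | algebraMap x => exact hFN x
    | add x y _ _ hx hy => exact add_mem (hx trivial) (hy trivial)
    | inv x _ hx => exact inv_mem (hx trivial)
    | mul x y _ _ hx hy => exact mul_mem (hx trivial) (hy trivial)
  have htr : Transcendental L (algebraMap F Ω D.s) := by
    intro h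
    have h1 : IsAlgebraic K (algebraMap F Ω D.s) := h.restrictScalars K
    have h2 : IsAlgebraic K D.s := by
      obtain ⟨p, hp, hp'⟩ := h1
      refine ⟨p, hp, ?_⟩
      rw [aeval_algebraMap_apply] at hp'
      exact (map_eq_zero_iff _ (algebraMap F Ω).injective).mp hp'
    exact Pool.Agent.Helper70.KX.ind_snd D.ind h2
  have hDsc : 4 * QS e ^ 3 + QT e ^ 2 ≠ 0 := by
    have h1 := map_QS ((aeval ((algebraMap K L τ) ^ 2) : k[X] →ₐ[k] L) : k[X] →+* L) D.e
    have h2 := map_QT ((aeval ((algebraMap K L τ) ^ 2) : k[X] →ₐ[k] L) : k[X] →+* L) D.e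
    intro h0
    refine hcne _ D.dsc ?_
    change aeval ((algebraMap K L τ) ^ 2) (QS D.e) = QS e at h1
    change aeval ((algebraMap K L τ) ^ 2) (QT D.e) = QT e at h2
    rw [map_add, map_mul, map_pow, map_pow, h1, h2, map_ofNat]
    exact h0
  let B : Cq L Ω :=
    { e := e
      q := q
      hq := hq2
      q0 := hq0
      dsc := hDsc
      s := algebraMap F Ω D.s
      y := algebraMap F Ω D.y
      eqn := by
        have h1 := map_qua (algebraMap F Ω) (fun i => aeval (D.τ ^ 2) (D.e i)) D.s
        rw [← D.eqn, map_pow] at h1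
        simp only [hcF] at h1
        simp only [e, hcL]
        exact h1
      tr := htr
      gen := gen }
  let Z : Ctq k K L F Ω :=
    { D := D
      B := B
      hs := rfl
      hy := rfl
      τ := τ
      hτ := hτΩ
      hc := fun j => rfl
      genK := genK
      genL := genL }
  exact Z.exists_A1 hK hL fun μ hμ P Q => harm_kx hK τ genK hμ P Q

end Pool.Agent.Helper67.KQ

namespace Pool.Agent.Helper15.KP

open VC VF Function Polynomial Pool.Agent.Helper21.TO Pool.Agent.Helper15.GT

universe u

variable {k : Type u} [Field k] [IsAlgClosed k] [CharZero k]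

/-- STEP A for families of quartics, the data exist. -/
theorem exists_a1q {F : Type u} [Field F] [Algebra k F] (D : CQ k F) :
    ∃ (Ω : Type u) (_ : Field Ω) (_ : Algebra k Ω) (G Γ : Type u) (_ : Group G) (_ : Fintype G) (_ : Group Γ)
      (_ : Fintype Γ), Nonempty (A1G D.ι (27 * X ^ 2 * QS D.e) (27 * X ^ 3 * QT D.e) Ω G Γ) := by
  obtain ⟨G, Γ, i1, i2, i3, i4, h⟩ := Pool.Agent.Helper67.KQ.exists_a1q_split D
    (Ω := (Pool.Agent.Helper67.KQ.sqP D).SplittingField) (IsSplittingField.splittingField _)
  exact ⟨_, inferInstance, inferInstance, G, Γ, i1, i2, i3, i4, h⟩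

end Pool.Agent.Helper15.KP
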