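import Mathlib
import Pool.Agent.Helper9.NS
import Pool.Agent.Helper50.KS.Orbit
import Pool.Agent.Helper67.KQ.Gen

/-!
# KQ: the slopes form one orbit, the quadratic case
-/

set_option linter.unusedSectionVars false

namespace Pool.Agent.Helper67.KQ

open Polynomial Pool.Agent.Helper15.KP
open Pool.Agent.Helper50.KS

universe u

section irr

variable {K : Type*} [Field K] [CharZero K]

/-- a quadratic polynomial over `K[X]` whose discriminant is not a square -/
theorem quad_irreducible (α : K) (hα : α ≠ 0) (β γ : K[X]) (hG : ∀ g : K[X], g ^ 2 ≠ β ^ 2 - 4 * C α * γ) :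
    Irreducible (C (C α) * X ^ 2 + C β * X + C γ : K[X][X]) := by
  have hu : IsUnit (C (C α) : K[X][X]) := by
    rw [isUnit_C, isUnit_C]
    exact isUnit_iff_ne_zero.mpr hα
  have e : (C (C α) * X ^ 2 + C β * X + C γ : K[X][X]) = C (C α) * (X ^ 2 + C (C α⁻¹ * β) * X + C (C α⁻¹ * γ)) := by
    have h1 : (C (C α) : K[X][X]) * C (C α⁻¹ * β) = C β := by
      rw [← C_mul, ← mul_assoc, ← C_mul, mul_inv_cancel₀ hα, C_1, one_mul]
    have h2 : (C (C α) : K[X][X]) * C (C α⁻¹ * γ) = C γ := by
      rw [← C_mul, ← mul_assoc, ← C_mul, mul_inv_cancel₀ hα, C_1, one_mul]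
    rw [mul_add, mul_add, ← mul_assoc, h1, h2]
  rw [e, irreducible_isUnit_mul hu]
  have hmon : (X ^ 2 + C (C α⁻¹ * β) * X + C (C α⁻¹ * γ) : K[X][X]).Monic := by
    monicity!
  have hdeg : (X ^ 2 + C (C α⁻¹ * β) * X + C (C α⁻¹ * γ) : K[X][X]).natDegree = 2 := by
    compute_degree!
  rw [hmon.irreducible_iff_roots_eq_zero_of_degree_le_three (by rw [hdeg]) (by rw [hdeg]; norm_num)]
  rw [Multiset.eq_zero_iff_forall_notMem]
  intro r hr
  rw [mem_roots hmon.ne_zero, IsRoot, eval_add, eval_add, eval_pow, eval_mul, eval_X, eval_C, eval_C] at hr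
  apply hG (2 * C α * r + β)
  have hα1 : (C α : K[X]) * C α⁻¹ = 1 := by rw [← C_mul, mul_inv_cancel₀ hα, C_1]
  linear_combination 4 * C α ^ 2 * hr + (- 4 * C α * r * β - 4 * C α * γ) * hα1

end irr

section frac

variable {k : Type u} [Field k] [CharZero k]

/-- the value at `(l, s)` of a polynomial in `s` whose coefficients are polynomials in `l` -/
noncomputable abbrev evls {N : Type*} [Field N] [Algebra k N] (l s : N) (p : k[X][X]) : N :=
  p.eval₂ (aeval l : k[X] →ₐ[k] N).toRingHom s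

lemma sq_eq (p : k[X]) : sq k p = aeval (sq k X) p := by
  have h : (sq k : k[X] →+* FractionRing k[X]) = (aeval (sq k X) : k[X] →ₐ[k] FractionRing k[X]).toRingHom := by
    apply Polynomial.ringHom_ext
    · intro a
      change algebraMap k[X] (FractionRing k[X]) (expand k 2 (C a)) = aeval _ (C a)
      rw [expand_C, aeval_C]
      rfl
    · change sq k X = aeval _ X
      rw [aeval_X]
  exact congrArg (fun f => f p) h

lemma evls_sq (s : FractionRing k[X]) (p : k[X][X]) : evls (sq k X) s p = (p.map (sq k)).eval s := by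
  have h : (aeval (sq k X) : k[X] →ₐ[k] FractionRing k[X]).toRingHom = sq k := RingHom.ext fun p => (sq_eq p).symm
  rw [evls, h, eval_map]

/-- The discriminant is not a square over `k (θ)`, `l = θ²`. -/
theorem G_not_sq (α : k[X]) (β γ : k[X][X]) (hβ : β.natDegree ≤ 2) (hγ : γ.natDegree ≤ 4) (c0 : k)
    (e : Fin 5 → k[X]) (hd : 4 * QS e ^ 3 + QT e ^ 2 ≠ 0)
    (hform : ∀ (S : Type u) [Field S] [Algebra k S] (l s s' : S), (s - algebraMap k S c0) * s' = 1 →
      s' ^ 4 * (evls l s β ^ 2 - 4 * aeval l α * evls l s γ) = qua (fun i => aeval l (e i)) s')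
    (g : (FractionRing k[X])[X]) :
    g ^ 2 ≠ (β.map (sq k)) ^ 2 - 4 * C (sq k α) * (γ.map (sq k)) := by
  intro hg
  have z : CharZero (FractionRing k[X]) :=
    charZero_of_injective_algebraMap (R := k) (algebraMap k (FractionRing k[X])).injective
  have hdeg : g.natDegree ≤ 2 := by
    have h1 : (g ^ 2).natDegree ≤ 4 := by
      rw [hg]
      have h2 : (β.map (sq k)).natDegree ≤ 2 := natDegree_map_le.trans hβ
      have h3 : (γ.map (sq k)).natDegree ≤ 4 := natDegree_map_le.trans hγ
      have h4 : ((β.map (sq k)) ^ 2).natDegree ≤ 4 := natDegree_pow_le.trans (by omega)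
      have h5 : (4 * C (sq k α) * (γ.map (sq k))).natDegree ≤ 4 := by
        have e4 : (4 : (FractionRing k[X])[X]) = C 4 := by rw [map_ofNat]
        rw [e4, ← C_mul]
        exact (natDegree_C_mul_le _ _).trans h3
      exact (natDegree_sub_le _ _).trans (max_le h4 h5)
    rw [natDegree_pow] at h1
    omega
  have hg' : g = C (g.coeff 2) * X ^ 2 + C (g.coeff 1) * X + C (g.coeff 0) := by
    conv_lhs => rw [as_sum_range_C_mul_X_pow' (n := 3) g (by omega)]
    rw [Finset.sum_range_succ, Finset.sum_range_succ, Finset.sum_range_succ, Finset.sum_range_zero, pow_one,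
      pow_zero, mul_one]
    ring
  obtain ⟨x, hx⟩ : ∃ a, a = g.coeff 2 := ⟨_, rfl⟩
  obtain ⟨y, hy⟩ : ∃ a, a = g.coeff 1 := ⟨_, rfl⟩
  obtain ⟨w, hw⟩ : ∃ a, a = g.coeff 0 := ⟨_, rfl⟩
  rw [← hx, ← hy, ← hw] at hg'
  obtain ⟨c, hc⟩ : ∃ c, c = algebraMap k (FractionRing k[X]) c0 := ⟨_, rfl⟩
  obtain ⟨eK', heK⟩ : ∃ eK' : Fin 5 → FractionRing k[X], ∀ i, eK' i = sq k (e i) := ⟨fun i => sq k (e i), fun _ => rfl⟩
  have hD : 4 * QS eK' ^ 3 + QT eK' ^ 2 ≠ 0 := by
    have e1 : eK' = fun i => sq k (e i) := funext heK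
    have h1 := map_QS (sq k) e
    have h2 := map_QT (sq k) e
    rw [e1, ← h1, ← h2]
    intro h0
    apply hd
    apply sq_inj
    rw [map_add, map_mul, map_pow, map_pow, map_ofNat, map_zero]
    exact h0
  have hev : ∀ u : FractionRing k[X], u ≠ 0 → (x * (c * u + 1) ^ 2 + y * u * (c * u + 1) + w * u ^ 2) ^ 2 =
      eK' 4 * u ^ 4 + eK' 3 * u ^ 3 + eK' 2 * u ^ 2 + eK' 1 * u + eK' 0 := by
    intro u hu
    have h1 := hform (FractionRing k[X]) (sq k X) (c + u⁻¹) u (by rw [← hc]; field_simp; ring)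
    rw [evls_sq, evls_sq, ← sq_eq] at h1
    have h2 := congrArg (eval (c + u⁻¹)) hg
    have e4 : (4 : (FractionRing k[X])[X]) = C 4 := by rw [map_ofNat]
    rw [e4, eval_sub, eval_pow, eval_pow, eval_mul, eval_mul, eval_C, eval_C] at h2
    rw [← h2, hg'] at h1
    simp only [eval_add, eval_mul, eval_pow, eval_X, eval_C] at h1
    have h3 : qua (fun i => aeval (sq k X) (e i)) u = eK' 4 * u ^ 4 + eK' 3 * u ^ 3 + eK' 2 * u ^ 2 + eK' 1 * u +
        eK' 0 := by
      simp only [qua, ← sq_eq, heK]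
    rw [h3] at h1
    rw [← h1]
    field_simp
  apply not_sq_qua hD (C x * (C c * X + 1) ^ 2 + C y * X * (C c * X + 1) + C w * X ^ 2)
  have h4 : (((C x * (C c * X + 1) ^ 2 + C y * X * (C c * X + 1) + C w * X ^ 2) ^ 2 -
      (C (eK' 4) * X ^ 4 + C (eK' 3) * X ^ 3 + C (eK' 2) * X ^ 2 + C (eK' 1) * X + C (eK' 0))) * X :
      (FractionRing k[X])[X]) = 0 := by
    apply Polynomial.funext
    intro u
    by_cases hu : u = 0
    · simp [hu]
    · have h5 := hev u hu
      simp only [eval_mul, eval_sub, eval_add, eval_pow, eval_C, eval_X, eval_one, eval_zero]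
      rw [h5]
      ring
  exact sub_eq_zero.mp ((mul_eq_zero.mp h4).resolve_right X_ne_zero)

end frac

section orb

variable {k : Type u} {N : Type*} [Field k] [CharZero k] [Field N] [Algebra k N]

lemma evls_eK (τ : N) (hτ : Transcendental k τ) (s : N) (p : k[X][X]) :
    (p.map (sq k)).eval₂ (eK τ hτ : FractionRing k[X] →+* N) s = evls (τ ^ 2) s p := by
  rw [eval₂_map, evls]
  congr 1
  exact RingHom.ext fun p => eK_sq τ hτ p

/-- the polynomial of the family -/
noncomputable def Phi (α : k[X]) (β γ : k[X][X]) : (FractionRing k[X])[X][X] :=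
  C (C (sq k α)) * X ^ 2 + C (β.map (sq k)) * X + C (γ.map (sq k))

lemma ev_Phi (τ : N) (hτ : Transcendental k τ) (α : k[X]) (β γ : k[X][X]) (s t : N)
    (h : aeval (τ ^ 2) α * t ^ 2 + evls (τ ^ 2) s β * t + evls (τ ^ 2) s γ = 0) :
    ev2 (eK τ hτ : FractionRing k[X] →+* N) s t (Phi α β γ) = 0 := by
  rw [← h]
  unfold ev2 Phi
  simp only [eval₂_add, eval₂_mul, eval₂_pow, eval₂_C, eval₂_X, coe_eval₂RingHom]
  rw [evls_eK, evls_eK]
  have h1 : (eK τ hτ : FractionRing k[X] →+* N) (sq k α) = aeval (τ ^ 2) α := eK_sq τ hτ α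
  rw [h1]

/-- `t` is algebraic over `k (τ, s)` -/
theorem t_mem_closure {τ s t : N} (hτ : Transcendental k τ) (α : k[X]) (hα : α ≠ 0) (β γ : k[X][X])
    (h : aeval (τ ^ 2) α * t ^ 2 + evls (τ ^ 2) s β * t + evls (τ ^ 2) s γ = 0) :
    t ∈ (AlgebraicIndependent.matroid k N).closure {τ, s} := by
  rw [AlgebraicIndependent.matroid_closure_eq]
  show IsAlgebraic (Algebra.adjoin k {τ, s}) t
  set A := Algebra.adjoin k ({τ, s} : Set N)
  let τ' : A := ⟨τ, Algebra.subset_adjoin (by simp)⟩
  let s' : A := ⟨s, Algebra.subset_adjoin (by simp)⟩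
  let ev : k[X][X] →+* A := eval₂RingHom (aeval (τ' ^ 2) : k[X] →ₐ[k] A).toRingHom s'
  have hev : ∀ p : k[X][X], ((ev p : A) : N) = evls (τ ^ 2) s p := by
    intro p
    have h1 := Polynomial.hom_eval₂ p (aeval (τ' ^ 2) : k[X] →ₐ[k] A).toRingHom (A.val : A →+* N) s'
    have h2 : ((A.val : A →+* N).comp (aeval (τ' ^ 2) : k[X] →ₐ[k] A).toRingHom) =
        (aeval (τ ^ 2) : k[X] →ₐ[k] N).toRingHom := by
      apply RingHom.ext
      intro p
      have h3 := aeval_algHom_apply A.val (τ' ^ 2) p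
      rw [map_pow] at h3
      exact h3.symm
    rw [h2] at h1
    exact h1
  have hal : ((aeval (τ' ^ 2) α : A) : N) = aeval (τ ^ 2) α := by
    have h3 := aeval_algHom_apply A.val (τ' ^ 2) α
    rw [map_pow] at h3
    exact h3.symm
  refine ⟨C (aeval (τ' ^ 2) α) * X ^ 2 + C (ev β) * X + C (ev γ), ?_, ?_⟩
  · intro h1
    have h2 := congrArg (fun p => coeff p 2) h1
    have h2' : aeval (τ' ^ 2) α = 0 := by simpa [coeff_X, coeff_C] using h2
    have h3 : aeval (τ ^ 2) α = 0 := by rw [← hal, h2']; rfl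
    have h4 : Transcendental k (τ ^ 2) := hτ.pow (by norm_num)
    exact hα ((transcendental_iff.1 h4) _ h3)
  · simp only [map_add, map_mul, map_pow, aeval_C, aeval_X]
    have hmap : ∀ a : A, algebraMap A N a = (a : N) := fun a => rfl
    simp only [hmap, hev, hal]
    exact h

/-- `s` is transcendental over `k (τ)` -/
theorem indep2 {τ s t : N} (hτ : Transcendental k τ) (hst : AlgebraicIndependent k ![s, t])
    (α : k[X]) (hα : α ≠ 0) (β γ : k[X][X])
    (h : aeval (τ ^ 2) α * t ^ 2 + evls (τ ^ 2) s β * t + evls (τ ^ 2) s γ = 0) :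
    AlgebraicIndependent k ![τ, s] := by
  by_contra hcon
  have h1 := mem_closure_of_dep hτ hcon
  have h2 := t_mem_closure hτ α hα β γ h
  refine two_closure hst h1 ?_
  set M := AlgebraicIndependent.matroid k N
  have h3 : M.closure {τ, s} ⊆ M.closure {τ} := by
    apply M.closure_subset_closure_of_subset_closure
    intro z hz
    rcases hz with rfl | hz
    · exact M.mem_closure_self z
    · rw [Set.mem_singleton_iff] at hz
      subst hz
      exact h1
  exact h3 h2

end orb

section conj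

variable {k : Type u} {R N : Type*} [Field k] [CharZero k] [Field R] [Field N] [Algebra k R] [Algebra R N]
  [Algebra k N] [IsScalarTower k R N]

/-- Two elements satisfying the equation of the family are conjugate. -/
theorem conj2 [Normal R N] {s t : R} (hst : AlgebraicIndependent k ![s, t])
    (hgen : IntermediateField.adjoin k (Set.range ![s, t]) = ⊤) {τ τ' : N} (hτ : Transcendental k τ)
    (hτ' : Transcendental k τ') (α : k[X]) (hα : α ≠ 0) (β γ : k[X][X])
    (hG : ∀ g : (FractionRing k[X])[X], g ^ 2 ≠ (β.map (sq k)) ^ 2 - 4 * C (sq k α) * (γ.map (sq k)))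
    (h : aeval (τ ^ 2) α * algebraMap R N t ^ 2 + evls (τ ^ 2) (algebraMap R N s) β * algebraMap R N t +
      evls (τ ^ 2) (algebraMap R N s) γ = 0)
    (h' : aeval (τ' ^ 2) α * algebraMap R N t ^ 2 + evls (τ' ^ 2) (algebraMap R N s) β * algebraMap R N t +
      evls (τ' ^ 2) (algebraMap R N s) γ = 0) :
    ∃ σ : N ≃ₐ[R] N, σ τ = τ' := by
  have z : CharZero (FractionRing k[X]) :=
    charZero_of_injective_algebraMap (R := k) (algebraMap k (FractionRing k[X])).injective
  have hst' : AlgebraicIndependent k ![algebraMap R N s, algebraMap R N t] := by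
    have h1 := hst.map' (f := IsScalarTower.toAlgHom k R N) (algebraMap R N).injective
    convert h1 using 1
    funext i
    fin_cases i <;> rfl
  have hx := transc_of_indep hτ (indep2 hτ hst' α hα β γ h)
  have hα' : sq k α ≠ 0 := by
    intro h0
    exact hα (sq_inj (by rw [h0, map_zero]))
  have hirr : Irreducible (Phi α β γ) := quad_irreducible (sq k α) hα' _ _ hG
  have hN := Normal.isIntegral (F := R) (K := N) inferInstance τ
  have key : aeval τ' (minpoly R τ) = 0 := by
    refine minpoly_zero (k := k) ![s, t] hgen τ τ' ?_ _ (minpoly.aeval R τ)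
    intro p hp
    have e1 : eK τ hτ (algebraMap k[X] (FractionRing k[X]) X) = τ := by rw [eK_apply, aeval_X]
    have e2 : eK τ' hτ' (algebraMap k[X] (FractionRing k[X]) X) = τ' := by rw [eK_apply, aeval_X]
    have h1 := link (eK τ hτ) (eK τ' hτ') (algebraMap k[X] (FractionRing k[X]) X) (algebraMap R N s)
      (algebraMap R N t) hx (Phi α β γ) hirr (ev_Phi τ hτ α β γ _ _ h) (ev_Phi τ' hτ' α β γ _ _ h') p
    rw [e1, e2] at h1
    exact h1 hp
  exact minpoly.exists_algEquiv_of_root' hN.isAlgebraic key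

end conj

end Pool.Agent.Helper67.KQ
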