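import Mathlib
import Pool.Agent.Helper9.NS
import Pool.Agent.Helper67.KQ.Qg
import Pool.Agent.Helper50.KS.Qd
import Pool.Agent.Helper83.KPA.Coord2
import Pool.Agent.Helper15.KP.Dbl2

/-!
# KQ: the structure `QG` of the surface `t z ^ 2 = a t w + f`, `t w ^ 2 = b t z + g`
-/

set_option linter.unusedSectionVars false

namespace Pool.Agent.Helper67.KQ

open Polynomial
open VC VF Function Pool.Agent.Helper21.TO Pool.Agent.Helper15.GT
open Pool.Agent.Helper15.KP
open Pool.Agent.Helper50.KS

universe u

section dbl

variable {k R F : Type u} [Field k] [IsAlgClosed k] [CharZero k] [Field R] [Field F]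
  [Algebra k R] [Algebra k F] [Algebra R F] [IsScalarTower k R F]

/-- harmonic functions on the double plane `t x ^ 2 = f` are constant -/
theorem dbl2_const {s t : R} (hst : AlgebraicIndependent k ![s, t])
    (hgen : IntermediateField.adjoin k (Set.range ![s, t]) = ⊤) (f0 : k) (f2 f4 : k[X]) (h2 : f2.natDegree ≤ 2)
    (h4 : f4.natDegree ≤ 4) (x : F)
    (hx : algebraMap R F t * x ^ 2 = algebraMap k F f0 * algebraMap R F t ^ 2 +
      aeval (algebraMap R F s) f2 * algebraMap R F t + aeval (algebraMap R F s) f4) (hq : Reg k F) :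
    ∀ u' : RPl k (IntermediateField.adjoin R {x}) → k, HF k (IntermediateField.adjoin R {x}) u' →
      ∀ w w', u' w = u' w' := by
  intro u' hu' w w'
  let E := IntermediateField.adjoin R {x}
  have hxE : x ∈ E := IntermediateField.subset_adjoin R _ rfl
  have iT : IsScalarTower k E F := IsScalarTower.of_algebraMap_eq fun c => by
    rw [IsScalarTower.algebraMap_apply k R E c, ← IsScalarTower.algebraMap_apply R E F,
      ← IsScalarTower.algebraMap_apply k R F]
  have hst' : AlgebraicIndependent k ![algebraMap R E s, algebraMap R E t] := by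
    have h1 := hst.map' (f := IsScalarTower.toAlgHom k R E) (algebraMap R E).injective
    convert h1 using 1
    funext i
    fin_cases i <;> rfl
  have ht0 : algebraMap R E t ≠ 0 := by
    intro h0
    have h1 := hst'.transcendental 1
    apply h1
    change IsAlgebraic k (algebraMap R E t)
    rw [h0]
    exact isAlgebraic_zero
  refine dbl2 (F := E) (algebraMap R E s) (algebraMap R E t) (algebraMap R E t * ⟨x, hxE⟩) f0 f2 f4 h2 h4 hst' ?_ ?_
    (Reg.of_hom (E.val.restrictScalars k) hq) hu' w w'
  · have h5 : ∀ p : k[X], algebraMap E F (aeval (algebraMap R E s) p) = aeval (algebraMap R F s) p := by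
      intro p
      rw [← aeval_algebraMap_apply, ← IsScalarTower.algebraMap_apply]
    apply (algebraMap E F).injective
    rw [map_pow, map_mul, map_mul, map_add, map_add, map_mul, map_mul, map_pow, h5, h5,
      ← IsScalarTower.algebraMap_apply, ← IsScalarTower.algebraMap_apply]
    change (algebraMap R F t * x) ^ 2 = _
    linear_combination algebraMap R F t * hx
  · have hR : ∀ r : R, algebraMap R E r ∈ IntermediateField.adjoin k
        {algebraMap R E s, algebraMap R E t, algebraMap R E t * (⟨x, hxE⟩ : E)} := by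
      intro r
      have hr : r ∈ IntermediateField.adjoin k (Set.range ![s, t]) := by
        rw [hgen]
        trivial
      have h2 : (IsScalarTower.toAlgHom k R E) r ∈
          (IntermediateField.adjoin k (Set.range ![s, t])).map (IsScalarTower.toAlgHom k R E) :=
        ⟨r, hr, rfl⟩
      rw [IntermediateField.adjoin_map] at h2
      refine IntermediateField.adjoin.mono k _ _ ?_ h2
      rintro _ ⟨_, ⟨i, rfl⟩, rfl⟩
      fin_cases i
      · exact Or.inl rfl
      · exact Or.inr (Or.inl rfl)
    rw [eq_top_iff]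
    rintro ⟨y, hy⟩ -
    induction hy using IntermediateField.adjoin_induction with
    | mem y hy =>
      obtain rfl : y = x := hy
      have h6 : (⟨y, hxE⟩ : E) = (algebraMap R E t * (⟨y, hxE⟩ : E)) / algebraMap R E t := by
        rw [mul_div_cancel_left₀ _ ht0]
      have h7 : (algebraMap R E t * (⟨y, hxE⟩ : E)) / algebraMap R E t ∈ IntermediateField.adjoin k
        {algebraMap R E s, algebraMap R E t, algebraMap R E t * (⟨y, hxE⟩ : E)} :=
        div_mem (IntermediateField.subset_adjoin k _ (Or.inr (Or.inr rfl)))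
          (IntermediateField.subset_adjoin k _ (Or.inr (Or.inl rfl)))
      rw [← h6] at h7
      exact h7
    | algebraMap r => exact hR r
    | add y z hy hz h1 h2 => exact add_mem h1 h2
    | inv y hy h1 => exact inv_mem h1
    | mul y z hy hz h1 h2 => exact mul_mem h1 h2

end dbl

section poly

variable {k : Type u} [Field k]

lemma evls_C {N : Type*} [Field N] [Algebra k N] (l s : N) (p : k[X]) : evls l s (C p) = aeval l p := by
  rw [evls, eval₂_C]; rfl

lemma evls_map {N : Type*} [Field N] [Algebra k N] (l s : N) (p : k[X]) : evls l s (p.map C) = aeval s p := by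
  rw [evls, eval₂_map, aeval_def]
  congr 1
  ext c
  change (aeval l) (C c) = _
  rw [aeval_C]

lemma evls_add {N : Type*} [Field N] [Algebra k N] (l s : N) (p q : k[X][X]) :
    evls l s (p + q) = evls l s p + evls l s q := eval₂_add _ _

lemma evls_sub {N : Type*} [Field N] [Algebra k N] (l s : N) (p q : k[X][X]) :
    evls l s (p - q) = evls l s p - evls l s q := by
  exact map_sub (eval₂RingHom (aeval l : k[X] →ₐ[k] N).toRingHom s) p q

lemma evls_mul {N : Type*} [Field N] [Algebra k N] (l s : N) (p q : k[X][X]) :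
    evls l s (p * q) = evls l s p * evls l s q := eval₂_mul _ _

lemma evls_pow {N : Type*} [Field N] [Algebra k N] (l s : N) (p : k[X][X]) (n : ℕ) :
    evls l s (p ^ n) = evls l s p ^ n := eval₂_pow _ _ _

variable (a b f2 g2 f4 g4 : k[X]) (f0 g0 : k)

/-- the coefficients of the resolvent -/
noncomputable def al : k[X] := 4 * X * (C f0 - X * C g0)
noncomputable def be : k[X][X] :=
  C (X ^ 3) * (b.map C) ^ 2 - (a.map C) ^ 2 + C (4 * X) * f2.map C - C (4 * X ^ 2) * g2.map C
noncomputable def ga : k[X][X] := C (4 * X) * (f4.map C - C X * g4.map C)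

lemma al_ev {N : Type*} [Field N] [Algebra k N] (l : N) :
    aeval l (al f0 g0) = 4 * l * (algebraMap k N f0 - l * algebraMap k N g0) := by
  simp only [al, map_mul, map_sub, aeval_X, aeval_C, map_ofNat]

lemma be_ev {N : Type*} [Field N] [Algebra k N] (l s : N) :
    evls l s (be a b f2 g2) = l ^ 3 * (aeval s b) ^ 2 - (aeval s a) ^ 2 + 4 * l * aeval s f2 -
      4 * l ^ 2 * aeval s g2 := by
  unfold be
  rw [evls_sub, evls_add, evls_sub, evls_mul, evls_mul, evls_mul, evls_pow, evls_pow, evls_C, evls_C, evls_C,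
    evls_map, evls_map, evls_map, evls_map]
  simp only [map_mul, map_pow, aeval_X, map_ofNat]

lemma ga_ev {N : Type*} [Field N] [Algebra k N] (l s : N) :
    evls l s (ga f4 g4) = 4 * l * (aeval s f4 - l * aeval s g4) := by
  unfold ga
  rw [evls_mul, evls_sub, evls_mul, evls_C, evls_C, evls_map, evls_map]
  simp only [map_mul, aeval_X, map_ofNat]

lemma al_ne [CharZero k] (h : f0 ≠ 0 ∨ g0 ≠ 0) : al f0 g0 ≠ 0 := by
  unfold al
  refine mul_ne_zero (mul_ne_zero (by norm_num) X_ne_zero) ?_
  intro h0
  have h1 := congrArg (fun p => coeff p 0) h0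
  have h2 := congrArg (fun p => coeff p 1) h0
  have h3 : f0 = 0 := by simpa using h1
  have h4 : g0 = 0 := by
    have : coeff (C f0 - X * C g0) 1 = - g0 := by
      rw [coeff_sub, coeff_C_succ, coeff_X_mul, coeff_C_zero, zero_sub]
    simpa [this] using h2
  rcases h with h | h
  · exact h h3
  · exact h h4

variable {a b f2 g2 f4 g4}

lemma be_deg (ha : a.natDegree ≤ 1) (hb : b.natDegree ≤ 1) (hf2 : f2.natDegree ≤ 2) (hg2 : g2.natDegree ≤ 2) :
    (be a b f2 g2).natDegree ≤ 2 := by
  unfold be
  have h1 : ((b.map (C : k →+* k[X])) ^ 2).natDegree ≤ 2 :=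
    natDegree_pow_le.trans (by have := natDegree_map_le (f := (C : k →+* k[X])) (p := b); omega)
  have h2 : ((a.map (C : k →+* k[X])) ^ 2).natDegree ≤ 2 :=
    natDegree_pow_le.trans (by have := natDegree_map_le (f := (C : k →+* k[X])) (p := a); omega)
  have h3 : (f2.map (C : k →+* k[X])).natDegree ≤ 2 := natDegree_map_le.trans hf2
  have h4 : (g2.map (C : k →+* k[X])).natDegree ≤ 2 := natDegree_map_le.trans hg2
  refine (natDegree_sub_le _ _).trans (max_le ((natDegree_add_le _ _).trans (max_le ((natDegree_sub_le _ _).trans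
    (max_le ?_ h2)) ?_)) ?_)
  · exact (natDegree_C_mul_le _ _).trans h1
  · exact (natDegree_C_mul_le _ _).trans h3
  · exact (natDegree_C_mul_le _ _).trans h4

lemma ga_deg (hf4 : f4.natDegree ≤ 4) (hg4 : g4.natDegree ≤ 4) : (ga f4 g4).natDegree ≤ 4 := by
  unfold ga
  have h3 : (f4.map (C : k →+* k[X])).natDegree ≤ 4 := natDegree_map_le.trans hf4
  have h4 : (g4.map (C : k →+* k[X])).natDegree ≤ 4 := natDegree_map_le.trans hg4
  refine (natDegree_C_mul_le _ _).trans ((natDegree_sub_le _ _).trans (max_le h3 ?_))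
  exact (natDegree_C_mul_le _ _).trans h4

end poly

end Pool.Agent.Helper67.KQ

namespace Pool.Agent.Helper15.KP

open Polynomial
open VC VF Function Pool.Agent.Helper21.TO Pool.Agent.Helper15.GT
open Pool.Agent.Helper50.KS (Quart exists_N hdeg_of gen_self)
open Pool.Agent.Helper67.KQ
open Pool.Agent.Helper83.KPA (Gq exists_coord2)

universe u

variable {k : Type u} [Field k] [IsAlgClosed k] [CharZero k]

/-- FIELD. The data for the second family. -/
theorem exists_qg2 {F : Type u} [Field F] [Algebra k F] (s t z w : F) (a b f2 g2 f4 g4 : k[X]) (f0 g0 : k)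
    (ha : a.natDegree ≤ 1) (hb : b.natDegree ≤ 1) (hf2 : f2.natDegree ≤ 2) (hg2 : g2.natDegree ≤ 2)
    (hf4 : f4.natDegree ≤ 4) (hg4 : g4.natDegree ≤ 4)
    (hst : AlgebraicIndependent k ![s, t])
    (hz : t * z ^ 2 = aeval s a * t * w + (algebraMap k F f0 * t ^ 2 + aeval s f2 * t + aeval s f4))
    (hw : t * w ^ 2 = aeval s b * t * z + (algebraMap k F g0 * t ^ 2 + aeval s g2 * t + aeval s g4))
    (hgen : IntermediateField.adjoin k {s, t, z, w} = ⊤)
    (hdeg : Module.finrank (IntermediateField.adjoin k {s, t}) F = 4)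
    (hsm : ∃ l : k, 3 ≤ (Gq a b f2 g2 f4 g4 f0 g0 l).natDegree ∧ (Gq a b f2 g2 f4 g4 f0 g0 l).Separable)
    (hq : Reg k F) :
    ∃ (N F6 G : Type u) (_ : Field N) (_ : Algebra k N) (_ : Field F6) (_ : Algebra k F6) (_ : Group G)
      (_ : Fintype G) (D6 : CQ k F6) (_ : QG k F N F6 G D6.ι) (A B : k[X]), A.natDegree ≤ 8 ∧ B.natDegree ≤ 12 ∧
        QS D6.e = X ^ 2 * A ∧ QT D6.e = X ^ 3 * B := by
  classical
  obtain ⟨c0, e, A, B, he4, hds, hS, hT, hA, hB, hfg, hform⟩ := exists_coord2 ha hb hf2 hg2 hf4 hg4 hsm
  let R := IntermediateField.adjoin k {s, t}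
  have hsR : s ∈ R := IntermediateField.subset_adjoin k _ (Or.inl rfl)
  have htR : t ∈ R := IntermediateField.subset_adjoin k _ (Or.inr rfl)
  let s0 : R := ⟨s, hsR⟩
  let t0 : R := ⟨t, htR⟩
  have hR0 : CharZero R := charZero_of_injective_algebraMap (algebraMap k R).injective
  have hgen0 : IntermediateField.adjoin k {s0, t0} = ⊤ := gen_self s t
  have hvec2 : (fun i => R.val ((![s0, t0] : Fin 2 → R) i)) = ![s, t] := by
    funext i
    match i with
    | 0 => rfl
    | 1 => rfl
  have hst0 : AlgebraicIndependent k ![s0, t0] := by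
    refine AlgebraicIndependent.of_comp (R.val) ?_
    rw [← hvec2] at hst
    exact hst
  have ht0 : t0 ≠ 0 := by
    intro h0
    have h1 := hst0.transcendental 1
    apply h1
    change IsAlgebraic k t0
    rw [h0]
    exact isAlgebraic_zero
  have htF : t ≠ 0 := fun h => ht0 (Subtype.ext h)
  have hv : ∀ p : k[X], algebraMap R F (aeval s0 p) = aeval s p := by
    intro p
    rw [← aeval_algebraMap_apply]
    rfl
  let f0' : R := algebraMap k R f0 * t0 ^ 2 + aeval s0 f2 * t0 + aeval s0 f4
  let g0' : R := algebraMap k R g0 * t0 ^ 2 + aeval s0 g2 * t0 + aeval s0 g4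
  have hf' : algebraMap R F f0' = algebraMap k F f0 * t ^ 2 + aeval s f2 * t + aeval s f4 := by
    simp only [f0', map_add, map_mul, map_pow, hv, ← IsScalarTower.algebraMap_apply]
    rfl
  have hg' : algebraMap R F g0' = algebraMap k F g0 * t ^ 2 + aeval s g2 * t + aeval s g4 := by
    simp only [g0', map_add, map_mul, map_pow, hv, ← IsScalarTower.algebraMap_apply]
    rfl
  let Q : Quart R F := {
    a := aeval s0 a
    b := aeval s0 b
    f := f0' / t0
    g := g0' / t0
    z := z
    w := w
    pt := by
      rw [hv, hv, map_div₀, map_div₀, hf', hg']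
      have h1 : algebraMap R F t0 = t := rfl
      rw [h1]
      constructor
      · field_simp
        linear_combination hz
      · field_simp
        linear_combination hw
    gen := by
      apply IntermediateField.restrictScalars_injective k
      rw [IntermediateField.adjoin_adjoin_left, IntermediateField.restrictScalars_top, ← hgen]
      have e : ({s, t} ∪ {z, w} : Set F) = {s, t, z, w} := by
        rw [Set.insert_union, Set.singleton_union]
      rw [e]
    deg := hdeg }
  have hfd : FiniteDimensional R F := Q.fd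
  obtain ⟨N, iN, ikN, iRN, iFN, hs1, hs2, hnor, hfdN⟩ := exists_N k R F
  obtain ⟨φ0, -⟩ := Q.exists_enum N (IsScalarTower.toAlgHom R F N)
  obtain ⟨φ, hφ⟩ := Q.exists_enum1 φ0
  have hgen0' : IntermediateField.adjoin k (Set.range ![s0, t0]) = ⊤ := by
    rw [Matrix.range_cons, Matrix.range_cons, Matrix.range_empty, Set.union_empty, Set.singleton_union]
    exact hgen0
  have htN : algebraMap R N t0 ≠ 0 := (_root_.map_ne_zero _).mpr ht0
  have hvN : ∀ p : k[X], algebraMap R N (aeval s0 p) = aeval (algebraMap R N s0) p := by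
    intro p
    rw [← aeval_algebraMap_apply]
  obtain ⟨F6, G, iF6, ikF6, iG, iFG, D6, QGG, hQ⟩ := exists_qg0 Q φ hφ hst0 hgen0' (al f0 g0) (al_ne f0 g0 hfg)
    (be a b f2 g2) (ga f4 g4) (be_deg ha hb hf2 hg2) (ga_deg hf4 hg4) c0 e he4 hds (by
      intro S _ _ l s s' hs
      rw [be_ev, al_ev, ga_ev]
      exact hform S l s s' hs) (by
      intro τ hτ
      rw [al_ev, be_ev, ga_ev]
      have h4 : algebraMap R N (aeval s0 b) ^ 2 * τ ^ 6 -
        4 * algebraMap R N (g0' / t0) * τ ^ 4 +
        4 * algebraMap R N (f0' / t0) * τ ^ 2 -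
        algebraMap R N (aeval s0 a) ^ 2 = 0 := hτ
      rw [map_div₀, map_div₀] at h4
      have h5 : algebraMap R N f0' = algebraMap k N f0 * algebraMap R N t0 ^ 2 +
          aeval (algebraMap R N s0) f2 * algebraMap R N t0 + aeval (algebraMap R N s0) f4 := by
        simp only [f0', map_add, map_mul, map_pow, hvN, ← IsScalarTower.algebraMap_apply]
      have h6 : algebraMap R N g0' = algebraMap k N g0 * algebraMap R N t0 ^ 2 +
          aeval (algebraMap R N s0) g2 * algebraMap R N t0 + aeval (algebraMap R N s0) g4 := by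
        simp only [g0', map_add, map_mul, map_pow, hvN, ← IsScalarTower.algebraMap_apply]
      rw [h5, h6, hvN, hvN] at h4
      field_simp at h4
      linear_combination h4) (hdeg_of Q φ (by
        intro hQa
        refine dbl2_const hst0 hgen0' f0 f2 f4 hf2 hf4 z ?_ hq
        have h5 : aeval s a = 0 := by
          rw [← hv, show aeval s0 a = 0 from hQa, map_zero]
        rw [h5] at hz
        change t * z ^ 2 = algebraMap k F f0 * t ^ 2 + aeval s f2 * t + aeval s f4
        linear_combination hz) (by
        intro hQb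
        refine dbl2_const hst0 hgen0' g0 g2 g4 hg2 hg4 w ?_ hq
        have h5 : aeval s b = 0 := by
          rw [← hv, show aeval s0 b = 0 from hQb, map_zero]
        rw [h5] at hw
        change t * w ^ 2 = algebraMap k F g0 * t ^ 2 + aeval s g2 * t + aeval s g4
        linear_combination hw))
  refine ⟨N, F6, G, iN, ikN, iF6, ikF6, iG, iFG, D6, QGG, A, B, hA, hB, ?_, ?_⟩
  · rw [hQ]
    exact hS
  · rw [hQ]
    exact hT

end Pool.Agent.Helper15.KP
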