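import Mathlib
import Pool.Agent.Helper9.NS
import Pool.Agent.Helper15.KP.Main
import Pool.Agent.Helper67.KQ.ExA1q
import Pool.Agent.Helper67.KQ.Qg2
import Pool.Agent.Helper70.KX.Ell
import Pool.Agent.Helper70.KX.StepT

/-!
# KQ: surfaces with p_g = 1, K ^ 2 = 2 and a torsion class of order two, the theorem
-/

set_option linter.unusedSectionVars false

namespace Pool.Agent.Helper15.KP

open VC VF Function Polynomial Pool.Agent.Helper21.TO Pool.Agent.Helper15.GT
open Pool.Agent.Helper83.KPA (Gq)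
open Pool.Agent.Helper70.KX (stepT_G)

universe u

variable {k : Type u} [Field k] [IsAlgClosed k] [CharZero k]

/-- Step A for families of quartics. -/
theorem stepAq {F : Type u} [Field F] [Algebra k F] (D : CQ k F) {p : ℕ}
    (hE : EllVP k (27 * X ^ 2 * QS D.e) (27 * X ^ 3 * QT D.e) p) (M : ℕ) (ξ : Fin M → F) (hξ : ξ ≠ 0) (n : ℕ)
    (hn : p < n) : VoisinOn (proj k (van k ξ)) {b | ∃ a ∈ Odd D.ι, b = a.mapDomain (evP ξ hξ)} n := by
  obtain ⟨Ω, _, _, G, Γ, _, _, _, _, ⟨A⟩⟩ := exists_a1q D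
  exact stepA_of A hE M ξ hξ n hn

/-- The surface `t z ^ 2 = a t w + f`, `t w ^ 2 = b t z + g`. -/
theorem kp_main2 {F : Type u} [Field F] [Algebra k F] (s t z w : F) (a b f2 g2 f4 g4 : k[X]) (f0 g0 : k)
    (ha : a.natDegree ≤ 1) (hb : b.natDegree ≤ 1) (hf2 : f2.natDegree ≤ 2) (hg2 : g2.natDegree ≤ 2)
    (hf4 : f4.natDegree ≤ 4) (hg4 : g4.natDegree ≤ 4)
    (hst : AlgebraicIndependent k ![s, t])
    (hz : t * z ^ 2 = aeval s a * t * w + (algebraMap k F f0 * t ^ 2 + aeval s f2 * t + aeval s f4))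
    (hw : t * w ^ 2 = aeval s b * t * z + (algebraMap k F g0 * t ^ 2 + aeval s g2 * t + aeval s g4))
    (hgen : IntermediateField.adjoin k {s, t, z, w} = ⊤)
    (hdeg : Module.finrank (IntermediateField.adjoin k {s, t}) F = 4)
    (hsm : ∃ l : k, 3 ≤ (Gq a b f2 g2 f4 g4 f0 g0 l).natDegree ∧ (Gq a b f2 g2 f4 g4 f0 g0 l).Separable)
    (hq : Reg k F) : VP k F 1 := by
  classical
  obtain ⟨N, F6, G, _, _, _, _, _, _, D6, D, A, B, hA, hB, hS, hT⟩ := exists_qg2 s t z w a b f2 g2 f4 g4 f0 g0 ha hb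
    hf2 hg2 hf4 hg4 hst hz hw hgen hdeg hsm hq
  have hd := D6.dsc
  rw [hS, hT] at hd
  obtain ⟨B', hB'⟩ : ∃ B' : k[X], B' = C (1 / 2 : k) * B := ⟨_, rfl⟩
  have h2B : B = 2 * B' := by
    rw [hB', ← mul_assoc]
    have : (2 : k[X]) * C (1 / 2 : k) = 1 := by
      have e : (2 : k[X]) = C 2 := by rw [map_ofNat]
      rw [e, ← C_mul]
      norm_num
    rw [this, one_mul]
  have hB'd : B'.natDegree ≤ 12 := by
    rw [hB']
    exact (natDegree_C_mul_le _ _).trans hB
  have hd' : A ^ 3 + B' ^ 2 ≠ 0 := by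
    intro h0
    apply hd
    rw [h2B]
    linear_combination 4 * X ^ 6 * h0
  have e1 : 27 * X ^ 2 * QS D6.e = 27 * X ^ 4 * A := by
    rw [hS]; ring
  have e2 : 27 * X ^ 3 * QT D6.e = 54 * X ^ 6 * B' := by
    rw [hT, h2B]; ring
  rcases ellVP A B' hA hB'd hd' with h | ⟨α, β, U, hU, hA', hB''⟩
  · refine stepB_of D (stepAq D6 ?_) D.rat
    rw [e1, e2]
    exact h
  · obtain ⟨Ω, _, _, G', Γ, _, _, _, _, ⟨A1⟩⟩ := exists_a1q D6
    have h0 : VP k F 0 := by
      refine stepT_G D A1 D.rat hq (27 * α) (54 * β) (X * U) (mul_ne_zero X_ne_zero hU) ?_ ?_ ?_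
      · rw [e1, hA', C_mul, map_ofNat]
        ring
      · rw [e2, hB'', C_mul, map_ofNat]
        ring
      · rw [e1, e2]
        intro h0
        have h1 : (4 * 27 ^ 3 * X ^ 12 : k[X]) * (A ^ 3 + B' ^ 2) = 0 := by
          linear_combination h0
        rcases mul_eq_zero.mp h1 with h2 | h2
        · rcases mul_eq_zero.mp h2 with h3 | h3
          · norm_num at h3
          · exact pow_ne_zero 12 X_ne_zero h3
        · exact hd' h2
    intro M ξ hξ n hn
    exact h0 M ξ hξ n (by omega)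

end Pool.Agent.Helper15.KP
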